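import Pool.Agent.H65FJ.HyperEA

/-!
# Farrell–Jones groups: ascending series of normal subgroups

`C` is any class of groups with the closure properties `ClosedE C`: it contains `ℤ` and is closed
under subgroups, finite products, free products, overgroups of finite index, directed colimits and
satisfies the extension criterion with virtually cyclic subgroups. All this is known for the class of
the groups that satisfy the K- and L-theoretic Farrell–Jones conjecture with coefficients and finite
wreath products, which also contains all solvable groups (Wegner); `Wh(Γ) = 0` for all torsion-free
groups `Γ` in this class.

(1) If every proper normal subgroup `K` of `G` is contained in a larger normal subgroup `L` such that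
`⟨L, g⟩ / K` is in `C` for every `g` in `G`, then `G` is in `C`. (By transfinite recursion the
hypothesis gives an ascending series of normal subgroups of `G`, of arbitrary length.)

(2) Let `C` contain the solvable groups. Then `C` contains all groups `G` which have an ascending
(transfinite) series of normal subgroups whose factors are solvable or locally finite, and all groups
all of whose finitely generated subgroups have such a series.
-/

set_option autoImplicit false

namespace Pool.Agent.Results.MP_8f66f0_al.AscendingNormalSeries

open Pool.Agent.Y110.FJ (ClosedE)
open Pool.Agent.H65FJ (Hyp)

/-- Let `C` be a class of groups with the closure properties `ClosedE C`. (1) `G` is in `C` if every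
proper normal subgroup `K` of `G` is contained in a larger normal subgroup `L` such that
`⟨L, g⟩ / K` is in `C` for every `g` in `G`. (2) If `C` contains all solvable groups, then it contains
every group whose finitely generated subgroups are hyper-(solvable or locally finite) (`Hyp`), in
particular (3) every hyper-(solvable or locally finite) group. -/
theorem result (C : ∀ (G : Type) [Group G], Prop) (hC : ClosedE C) :
    (∀ (G : Type) [Group G], (∀ (K : Subgroup G) [K.Normal], K ≠ ⊤ →
      ∃ L : Subgroup G, L.Normal ∧ K < L ∧
        ∀ g : G, C ↥((L ⊔ Subgroup.zpowers g).map (QuotientGroup.mk' K))) → C G) ∧
    ((∀ (G : Type) [Group G], Group.IsSolvable G → C G) →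
      (∀ (G : Type) [Group G], (∀ s : Finset G, Hyp ↥(Subgroup.closure (s : Set G))) → C G) ∧
      (∀ (G : Type) [Group G], Hyp G → C G)) :=
  ⟨fun G _ h => Pool.Agent.H65FJ.hyper hC G h,
    fun hS => ⟨fun G _ h => Pool.Agent.H65FJ.locally_hyp_mem hC hS G h,
      fun G _ h => Pool.Agent.H65FJ.hyp_mem hC hS G h⟩⟩

end Pool.Agent.Results.MP_8f66f0_al.AscendingNormalSeries
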