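import Pool.Agent.V1132.CN.Main

set_option autoImplicit false

/-! For a torsion-free group `Γ` the least operator norm of the matrices in a class of `K₁(ℤΓ)`
takes only the values `1` and `3 / √2`: it is `1` for the classes of the trivial units and exactly
`3 / √2` for every other class. -/

namespace Pool.Agent.Results.MP_8f66f0_al.CriticalNorm

open TH57.Thr Pool.Agent.V1132.CN

theorem result :
    -- every group: the least norm of every class lies in `[1, 3 / √2]`, and it is `1` for `±g`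
    (∀ (Γ : Type) [Group Γ] (n : ℕ) (A : (Matrix (Fin n) (Fin n) (MonoidAlgebra ℤ Γ))ˣ),
      1 ≤ crit A ∧ crit A ≤ 3 / Real.sqrt 2 ∧ (Trivial A → crit A = 1) ∧
      ∀ c : ℝ, 3 / Real.sqrt 2 < c → ∃ (m : ℕ)
        (B : (Matrix (Fin (m + 1)) (Fin (m + 1)) (MonoidAlgebra ℤ Γ))ˣ), SameClass A B ∧
          NormLE (B : Matrix (Fin (m + 1)) (Fin (m + 1)) (MonoidAlgebra ℤ Γ)) c) ∧
    -- torsion-free groups: the dichotomy
    (∀ (Γ : Type) [Group Γ], (∀ g : Γ, ∀ k : ℕ, 0 < k → g ^ k = 1 → g = 1) →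
      ∀ (n : ℕ) (A : (Matrix (Fin n) (Fin n) (MonoidAlgebra ℤ Γ))ˣ),
        (Trivial A ∧ crit A = 1) ∨ (¬ Trivial A ∧ crit A = 3 / Real.sqrt 2)) ∧
    -- one group, torsion allowed: above `3 / √2` a bound on the norm is no restriction
    (∀ (Γ : Type) [Group Γ] (c : ℝ), 3 / Real.sqrt 2 < c →
      ((∀ (n : ℕ) (A : (Matrix (Fin n) (Fin n) (MonoidAlgebra ℤ Γ))ˣ), Trivial A) ↔
        ∀ (n : ℕ) (A : (Matrix (Fin n) (Fin n) (MonoidAlgebra ℤ Γ))ˣ),
          NormLE (A : Matrix (Fin n) (Fin n) (MonoidAlgebra ℤ Γ)) c → Trivial A)) ∧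
    -- below `3 / √2` the conclusion holds for all torsion-free groups
    (∀ (Γ : Type) [Group Γ], (∀ g : Γ, ∀ k : ℕ, 0 < k → g ^ k = 1 → g = 1) →
      ∀ c : ℝ, 0 ≤ c → c < 3 / Real.sqrt 2 →
      ∀ (n : ℕ) (A : (Matrix (Fin n) (Fin n) (MonoidAlgebra ℤ Γ))ˣ),
        NormLE (A : Matrix (Fin n) (Fin n) (MonoidAlgebra ℤ Γ)) c → Trivial A) ∧
    -- the whole question
    ((∀ (Γ : Type) [Group Γ], (∀ g : Γ, ∀ k : ℕ, 0 < k → g ^ k = 1 → g = 1) →
        ∀ (n : ℕ) (A : (Matrix (Fin n) (Fin n) (MonoidAlgebra ℤ Γ))ˣ), Trivial A) ↔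
      ∀ (Γ : Type) [Group Γ], (∀ g : Γ, ∀ k : ℕ, 0 < k → g ^ k = 1 → g = 1) →
        ∀ (n : ℕ) (A : (Matrix (Fin n) (Fin n) (MonoidAlgebra ℤ Γ))ˣ),
          crit A ≠ 3 / Real.sqrt 2) := by
  have hr : 0 < Real.sqrt 2 := Real.sqrt_pos.2 two_pos
  have hr2 : Real.sqrt 2 ^ 2 = 2 := Real.sq_sqrt two_pos.le
  have hsq : (3 / Real.sqrt 2) ^ 2 = 9 / 2 := by rw [div_pow, hr2]; norm_num
  have hpos : 0 < 3 / Real.sqrt 2 := by positivity
  have h1lt : (1 : ℝ) < 3 / Real.sqrt 2 := by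
    by_contra h
    push Not at h
    have h2 : (3 / Real.sqrt 2) ^ 2 ≤ 1 ^ 2 := pow_le_pow_left₀ hpos.le h 2
    rw [hsq] at h2
    norm_num at h2
  have key : ∀ (Γ : Type) [Group Γ], (∀ g : Γ, ∀ k : ℕ, 0 < k → g ^ k = 1 → g = 1) →
      ∀ (n : ℕ) (A : (Matrix (Fin n) (Fin n) (MonoidAlgebra ℤ Γ))ˣ),
        (Trivial A ∧ crit A = 1) ∨ (¬ Trivial A ∧ crit A = 3 / Real.sqrt 2) := by
    intro Γ _ htf n A
    by_cases h : Trivial A
    · exact Or.inl ⟨h, crit_of_trivial A h⟩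
    · exact Or.inr ⟨h, crit_of_not_trivial htf A h⟩
  refine ⟨?_, key, ?_, ?_, ?_⟩
  · intro Γ _ n A
    refine ⟨one_le_crit A, crit_le A, crit_of_trivial A, fun c hc => ?_⟩
    obtain ⟨h1, h2⟩ := lt_three_sqrt hc
    exact (mem_of_gt A c h1 h2).2
  · intro Γ _ c hc
    refine ⟨fun h n A _ => h n A, fun h n A => ?_⟩
    obtain ⟨h1, h2⟩ := lt_three_sqrt hc
    obtain ⟨m, B, h3, h4⟩ := (mem_of_gt A c h1 h2).2
    rw [trivial_iff, TT_SC (TU Γ) A B (SC_of_fin A B h3), ← trivial_iff]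
    exact h _ B h4
  · intro Γ _ htf c h0 hc n A hA
    rw [trivial_iff]
    have h2 : (max c 1) ^ 2 < 9 / 2 := by
      rw [← hsq]
      exact pow_lt_pow_left₀ (max_lt hc h1lt) (le_max_of_le_left h0) two_ne_zero
    exact TT_small htf A (max c 1) (lt_max_of_lt_right one_pos) h2
      (normLE_mono _ c _ h0 (le_max_left _ _) hA)
  · constructor
    · intro h Γ _ htf n A
      rw [crit_of_trivial A (h Γ htf n A)]
      exact h1lt.ne
    · intro h Γ _ htf n A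
      rcases key Γ htf n A with h1 | h1
      · exact h1.1
      · exact absurd h1.2 (h Γ htf n A)

end Pool.Agent.Results.MP_8f66f0_al.CriticalNorm
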