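import Pool.Agent.W647.HY4

/-!
# The odd Chern character of invertible matrices over rings graded by a group

Let `G` be a group and `S = ⨁ S_g` a `G`-graded ring, for example the group ring `R[Γ]` of a group
`Γ` with a homomorphism `Γ → G` (graded by the images of the elements of `Γ`), or a crossed product
`R * G`. Let `u` be an invertible matrix over `S` with inverse `v`, and let `u_s`, `v_s` be the
matrices of the homogeneous components of degree `s` of the entries. A biadditive map
`T : S × A → M` which is a trace in the first variable and an `A`-valued cocycle `c` of odd degree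
`2 k + 1` of the group `G` give the number
`τ = ∑ T (tr (v_{w 0} u_{w 1} v_{w 2} ⋯ u_{w (2 k + 1)}), c (1, w₀, w₀ w₁, …, w₀ ⋯ w_{2 k}))`,
the sum over the `w ∈ G ^ (2 k + 2)` with product `1`, and there is a similar number for every
conjugacy class of `G`. For `S = R[Γ]` and a torsion-free group `Γ` with trivial Whitehead group
these numbers vanish for `R = ℤ`, for every `Γ → G`, if `k ≥ 1`. We prove the integral divisibility
properties of these numbers for all graded rings.
-/

set_option autoImplicit false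

namespace Pool.Agent.Results.MP_8f66f0_al.GradedRings

open Pool.Agent.W647.HX1

universe u1 u2 u3 u4 u5

/-- Let `S` be a ring graded by the group `G` (`S = ⨁ S_g`, `1 ∈ S_1`, `S_g S_h ⊆ S_{gh}`), let
`T : S × A → M` be biadditive with `T (x y, a) = T (y x, a)`, let `u` be an invertible matrix over `S`
with inverse `v`, let `g ∈ G`, and let `c` be an `A`-valued class cocycle for `g` of degree
`2 k + 1`. Let `τ = ∑ T (tr (v_{w 0} u_{w 1} ⋯ u_{w (2 k + 1)}), c (t, t w₀, …, t w₀ ⋯ w_{2 k}))`, the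
sum over all `w ∈ G ^ (2 k + 2)` whose product `y` is conjugate to `g`, where `t = t y` is such that
`t y t⁻¹ = g`.

(1) Let `g` be of finite order and `k ≥ 1`. Then `k! τ` is divisible in `M` by all `N ≥ 1` such that
`G` has no element of order `p` for the primes `p ∣ N`; if `N M = 0` for such an `N` which is prime to
`k!`, then `τ = 0`; and if `G` is torsion-free and `0` is the only element of `M` which is divisible
by all `N ≥ 1`, then `k! τ = 0`.

(2) Let `H` be a subgroup of `G` which contains the degrees of the nonzero homogeneous components of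
`u` and `v`, let `p` be a prime and `b ≥ 0` such that no element of `H` which is conjugate to `g` in
`G` is a `p ^ (b + 1)`-th power in `H`. Then `k! p ^ (2 b) τ` is divisible in `M` by all powers of
`p`; and if `M` has no `p`-torsion and no nonzero element divisible by all powers of `p`, then
`k! τ = 0`. -/
theorem result (G : Type u1) [Group G] [DecidableEq G] (S : Type u2) [Ring S]
    (𝒮 : G → AddSubgroup S) [DirectSum.Decomposition 𝒮] (h1 : (1 : S) ∈ 𝒮 1)
    (hmul : ∀ g h : G, ∀ x ∈ 𝒮 g, ∀ y ∈ 𝒮 h, x * y ∈ 𝒮 (g * h))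
    (A : Type u3) [AddCommGroup A] (M : Type u4) [AddCommGroup M]
    (T : S →+ A →+ M) (hT : ∀ x y, T (x * y) = T (y * x))
    (d : Type u5) [Fintype d] [DecidableEq d] (u v : Matrix d d S)
    (huv : u * v = 1) (hvu : v * u = 1)
    (g : G) (t : G → G) (ht : ∀ y, IsConj y g → t y * y * (t y)⁻¹ = g)
    (k : ℕ) (c : (Fin (2 * k + 1 + 1) → G) → A) (hc : IsClassCoc g c) :
    (IsOfFinOrder g → 1 ≤ k →
      (∀ N : ℕ, N ≠ 0 → (∀ p : ℕ, p.Prime → p ∣ N → ∀ y : G, orderOf y ≠ p) →
        ∃ y : M, k.factorial • odTau T g t c (gc 𝒮 v) (gc 𝒮 u) = N • y) ∧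
      (∀ N : ℕ, N ≠ 0 → (∀ p : ℕ, p.Prime → p ∣ N → ∀ y : G, orderOf y ≠ p) →
        (∀ y : M, N • y = 0) → N.Coprime k.factorial →
        odTau T g t c (gc 𝒮 v) (gc 𝒮 u) = 0) ∧
      ((∀ y : G, IsOfFinOrder y → y = 1) →
        (∀ x : M, (∀ N : ℕ, N ≠ 0 → ∃ y, x = N • y) → x = 0) →
        k.factorial • odTau T g t c (gc 𝒮 v) (gc 𝒮 u) = 0)) ∧
    (∀ H : Subgroup G, (∀ s, gc 𝒮 u s ≠ 0 → s ∈ H) → (∀ s, gc 𝒮 v s ≠ 0 → s ∈ H) →
      ∀ p : ℕ, p.Prime → ∀ b : ℕ,
      (∀ y ∈ H, IsConj y g → ∀ x ∈ H, x ^ p ^ (b + 1) ≠ y) →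
      (∀ m : ℕ, ∃ y : M,
        (k.factorial * p ^ (2 * b)) • odTau T g t c (gc 𝒮 v) (gc 𝒮 u) = p ^ m • y) ∧
      ((∀ x : M, p • x = 0 → x = 0) → (∀ x : M, (∀ m : ℕ, ∃ y, x = p ^ m • y) → x = 0) →
        k.factorial • odTau T g t c (gc 𝒮 v) (gc 𝒮 u) = 0)) := by
  refine ⟨fun hg hk => ?_, fun H hu hv p hp b hb => ?_⟩
  · have h2 : ∀ N : ℕ, N ≠ 0 → (∀ p : ℕ, p.Prime → p ∣ N → ∀ y : G, orderOf y ≠ p) →
        ∃ y : M, k.factorial • odTau T g t c (gc 𝒮 v) (gc 𝒮 u) = N • y := fun N hN hp =>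
      graded_odd 𝒮 h1 hmul T hT hg ht (by omega) hc v u hvu huv N hN hp
    refine ⟨h2, fun N hN hp hM hcop => ?_, fun hG hM => hM _ fun N hN => h2 N hN ?_⟩
    · obtain ⟨y, hy⟩ := h2 N hN hp
      rw [hM] at hy
      have h3 := Nat.gcd_eq_gcd_ab N k.factorial
      rw [hcop] at h3
      have h4 : ((N : ℤ) * (Nat.gcdA N k.factorial) +
          ((k.factorial : ℕ) : ℤ) * (Nat.gcdB N k.factorial)) •
            odTau T g t c (gc 𝒮 v) (gc 𝒮 u) = odTau T g t c (gc 𝒮 v) (gc 𝒮 u) := by
        rw [← h3, Nat.cast_one, one_smul]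
      rw [add_smul, mul_smul, natCast_zsmul, hM, zero_add, mul_smul, natCast_zsmul, smul_comm, hy,
        smul_zero] at h4
      exact h4.symm
    · intro p hp _ y hy
      have h5 : IsOfFinOrder y := orderOf_pos_iff.1 (hy ▸ hp.pos)
      have h6 := hG y h5
      rw [h6, orderOf_one] at hy
      exact hp.one_lt.ne hy
  · have h2 : ∀ m : ℕ, ∃ y : M,
        (k.factorial * p ^ (2 * b)) • odTau T g t c (gc 𝒮 v) (gc 𝒮 u) = p ^ m • y :=
      graded_height 𝒮 h1 hmul T hT ht hc v u hvu huv H hv hu hp b hb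
    refine ⟨h2, fun h3 h4 => ?_⟩
    have h5 := h4 _ h2
    rw [mul_comm, mul_smul] at h5
    have h6 : ∀ (n : ℕ) (x : M), p ^ n • x = 0 → x = 0 := by
      intro n
      induction n with
      | zero => intro x hx; simpa using hx
      | succ n ih =>
        intro x hx
        rw [pow_succ', mul_smul] at hx
        exact ih x (h3 _ hx)
    exact h6 _ _ h5

end Pool.Agent.Results.MP_8f66f0_al.GradedRings
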