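import Pool.Agent.H65FJ.Ring3

/-!
# Farrell–Jones groups: unit groups of rings

`C` is any class of groups with the closure properties `ClosedE C`: it contains `ℤ` and is closed
under subgroups, finite products, free products, overgroups of finite index, directed colimits and
satisfies the extension criterion with virtually cyclic subgroups. All this is known for the class of
the groups that satisfy the K- and L-theoretic Farrell–Jones conjecture with coefficients and finite
wreath products; `Wh(Γ) = 0` for all torsion-free groups `Γ` in this class.

Let `R` be a ring and `I` a two-sided ideal of `R` such that every finite subset of `I` is contained in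
`e R e` for an idempotent `e` in `I` such that `GL₂(e R e)` is in `C` (`Enough C I`). If `G` is a
group of units of `R` and the image of `G` in `(R / I)ˣ` is in `C`, then so is `G`. The same holds for
ascending transfinite chains of such ideals.

Examples. `R = End_F(V)` for a vector space `V` of any dimension and `I` the ideal of the
endomorphisms of finite rank: here `GL₂(e R e) = GL_n(F)` with `n` finite, which is a Farrell–Jones
group for all fields `F` algebraic over `ℚ` or over `𝔽_p(t)` (Rüping). Matrix rings over rings with a
chain of ideals whose factors are rings of finitary matrices, for instance over the Toeplitz–Jacobson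
algebra `F⟨x, y | y x = 1⟩`, over Leavitt path algebras of finite graphs without two cycles with a common
vertex, or over semiartinian von Neumann regular rings.

Outline of the proof. Let `u` be in `G`. On the units in `1 + e R e` conjugation by `u` is realized by
a conjugation in `GL₂(k R k)`, where `k` is an idempotent in `I` such that `e`, `u e` and `e u⁻¹` are
in `k R k`: the idempotents `e` and `u e u⁻¹` are equivalent, and equivalent idempotents are
conjugate in the ring of `2 × 2`-matrices. So the inheritance criterion in `Pool.Agent.H65FJ.Col` can
be applied.
-/

set_option autoImplicit false

namespace Pool.Agent.Results.MP_8f66f0_al.UnitGroups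

open Pool.Agent.Y110.FJ (ClosedE)
open Pool.Agent.H65FJ (Enough IdealChain Lifts GLIn finRank)

/-- Let `C` be a class of groups with the closure properties `ClosedE C`. (1) Let `ρ : R → T` be a
homomorphism of rings such that every finite subset of its kernel is contained in `e R e` for an
idempotent `e` in the kernel such that `GL₂(e R e)` is in `C`. If `G` is a subgroup of `Rˣ` and its
image in `Tˣ` is in `C`, then `G` is in `C`. (2) Let there be an ascending transfinite chain of
two-sided ideals of `R` from `0` to `M` such that the condition in (1) holds for `J' / J` in `R / J`
for the steps `J < J'` of the chain. If the image of the subgroup `G` of `Rˣ` in `(R / M)ˣ` is in `C`,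
then `G` is in `C`. (3) Let `F` be a division ring such that `GL(Fⁿ)` is in `C` for all natural numbers
`n`, and let `G` be a group of automorphisms of an `F`-vector space `V` of any dimension. If the image
of `G` in the unit group of `End(V)` modulo the ideal of the endomorphisms of finite rank is in `C`,
then `G` is in `C`. -/
theorem result (C : ∀ (G : Type) [Group G], Prop) (hC : ClosedE C) :
    (∀ (R T : Type) [Ring R] [Ring T] (ρ : R →+* T), Enough C {x | ρ x = 0} → Lifts C ρ) ∧
    (∀ (R : Type) [Ring R] (M : TwoSidedIdeal R) (K : Set (TwoSidedIdeal R)), IdealChain C M K →
      Lifts C M.ringCon.mk') ∧
    (∀ (F V : Type) [DivisionRing F] [AddCommGroup V] [Module F V], GLIn C F →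
      Lifts C (finRank F V).ringCon.mk') :=
  ⟨fun _ _ _ _ ρ h G hG => Pool.Agent.H65FJ.one_step hC ρ h G hG,
    fun _ _ M K h G hG => Pool.Agent.H65FJ.chain hC M K h G hG,
    fun _ _ _ _ _ hF G hG => Pool.Agent.H65FJ.finitary_linear hC hF G hG⟩

end Pool.Agent.Results.MP_8f66f0_al.UnitGroups
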